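import Mathlib

/-!
# A quadratic lower bound for the smallest universal `p`-group for groups of order `p ^ n`

If a group `U` of order `p ^ m` contains all groups of order `p ^ (r + s)`, then `s (r (r - 1) / 2 - s) ≤ m r`: the
groups `Grp p r s B` of class two, `B` strictly upper triangular and taking the values `e_1, ..., e_s` at `s` fixed pairs,
are embedded in `U`, and `B` can be recovered from the images of the `r` generators.
-/

set_option autoImplicit false
open Filter Topology

namespace Pool.Agent.Results.MP_aa96c4_al.QuadraticLowerBound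

variable {p r s : ℕ}

/-- the group with underlying set `F_p^r × F_p^s` and multiplication
`(v, w) (v', w') = (v + v', w + w' + ∑_{i<j} v_i v'_j B_ij)`. -/
@[ext] structure Grp (p r s : ℕ) (B : Fin r → Fin r → Fin s → ZMod p) where
  v : Fin r → ZMod p
  w : Fin s → ZMod p

variable (B : Fin r → Fin r → Fin s → ZMod p)

def form (a b : Fin r → ZMod p) : Fin s → ZMod p := fun k => ∑ i, ∑ j, a i * b j * B i j k

theorem form_add_left (a a' b : Fin r → ZMod p) : form B (a + a') b = form B a b + form B a' b := by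
  funext k
  simp only [form, Pi.add_apply, add_mul, Finset.sum_add_distrib]

theorem form_add_right (a b b' : Fin r → ZMod p) : form B a (b + b') = form B a b + form B a b' := by
  funext k
  simp only [form, Pi.add_apply, mul_add, add_mul, Finset.sum_add_distrib]

theorem form_zero_left (b : Fin r → ZMod p) : form B 0 b = 0 := by
  funext k; simp [form]

theorem form_zero_right (b : Fin r → ZMod p) : form B b 0 = 0 := by
  funext k; simp [form]

theorem form_neg_left (a b : Fin r → ZMod p) : form B (-a) b = - form B a b := by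
  funext k; simp [form]

instance : Mul (Grp p r s B) := ⟨fun x y => ⟨x.v + y.v, x.w + y.w + form B x.v y.v⟩⟩
instance : One (Grp p r s B) := ⟨⟨0, 0⟩⟩
instance : Inv (Grp p r s B) := ⟨fun x => ⟨-x.v, -x.w + form B x.v x.v⟩⟩

theorem mul_v (x y : Grp p r s B) : (x * y).v = x.v + y.v := rfl
theorem mul_w (x y : Grp p r s B) : (x * y).w = x.w + y.w + form B x.v y.v := rfl
theorem one_v : (1 : Grp p r s B).v = 0 := rfl
theorem one_w : (1 : Grp p r s B).w = 0 := rfl
theorem inv_v (x : Grp p r s B) : (x⁻¹).v = -x.v := rfl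
theorem inv_w (x : Grp p r s B) : (x⁻¹).w = -x.w + form B x.v x.v := rfl

instance : Group (Grp p r s B) :=
  Group.ofLeftAxioms
    (by
      intro x y z
      ext k
      · simp only [mul_v]; rw [add_assoc]
      · simp only [mul_v, mul_w, form_add_left, form_add_right, Pi.add_apply]; ring)
    (by
      intro x
      ext k
      · simp [mul_v, one_v]
      · simp [mul_w, one_v, one_w, form_zero_left])
    (by
      intro x
      ext k
      · simp [mul_v, one_v, inv_v]
      · simp [mul_w, one_w, inv_w, inv_v, form_neg_left])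

def equivProd : Grp p r s B ≃ (Fin r → ZMod p) × (Fin s → ZMod p) where
  toFun x := (x.v, x.w)
  invFun x := ⟨x.1, x.2⟩
  left_inv x := rfl
  right_inv x := rfl

theorem card_grp : Nat.card (Grp p r s B) = p ^ (r + s) := by
  rw [Nat.card_congr (equivProd B), Nat.card_prod, Nat.card_fun, Nat.card_fun, Nat.card_fin, Nat.card_fin,
    Nat.card_zmod, pow_add]

/-- a generator -/
def gv (i : Fin r) : Grp p r s B := ⟨Pi.single i 1, 0⟩
def gw (w : Fin s → ZMod p) : Grp p r s B := ⟨0, w⟩
def ge (k : Fin s) : Grp p r s B := gw B (Pi.single k 1)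

theorem gw_mul (w w' : Fin s → ZMod p) : gw B (w + w') = gw B w * gw B w' := by
  ext k
  · simp [gw, mul_v]
  · simp [gw, mul_w, form_zero_left]

/-- `gw` as a homomorphism -/
def gwHom : Multiplicative (Fin s → ZMod p) →* Grp p r s B :=
  MonoidHom.mk' (fun w => gw B w.toAdd) (fun a b => gw_mul B a.toAdd b.toAdd)

theorem form_single (i j : Fin r) : form B (Pi.single i 1) (Pi.single j 1) = B i j := by
  classical
  funext k
  unfold form
  rw [Finset.sum_eq_single i, Finset.sum_eq_single j]
  · simp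
  · intro b _ hb; simp [hb]
  · simp
  · intro a _ ha
    apply Finset.sum_eq_zero
    intro b _
    simp [ha]
  · simp

theorem gv_mul (i j : Fin r) (h : B j i = 0) : gv B i * gv B j = gw B (B i j) * (gv B j * gv B i) := by
  ext k
  · simp [gv, gw, mul_v, add_comm]
  · simp only [gv, gw, mul_w, mul_v, form_single, form_zero_left, h]
    simp

/-- two homomorphisms into `U` which agree on the basis elements -/
theorem recover [NeZero p] {U : Type} [Group U] (B B' : Fin r → Fin r → Fin s → ZMod p)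
    (φ : Grp p r s B →* U) (φ' : Grp p r s B' →* U) (hφ : Function.Injective φ)
    (h1 : ∀ i, φ (gv B i) = φ' (gv B' i)) (h2 : ∀ k, φ (ge B k) = φ' (ge B' k))
    (i j : Fin r) (hB : B j i = 0) (hB' : B' j i = 0) : B i j = B' i j := by
  classical
  -- the two homomorphisms agree on all `gw`
  have hw : ∀ w, φ (gw B w) = φ' (gw B' w) := by
    have hh : φ.comp (gwHom B) = φ'.comp (gwHom B') := by
      have hmem : ∀ w : Fin s → ZMod p, Multiplicative.ofAdd w ∈
          MonoidHom.eqLocus (φ.comp (gwHom B)) (φ'.comp (gwHom B')) := by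
        intro w
        have hsum : w = ∑ k, (w k).val • (Pi.single k 1 : Fin s → ZMod p) := by
          funext l
          rw [Finset.sum_apply, Finset.sum_eq_single l]
          · simp
          · intro b _ hb; simp [hb.symm]
          · simp
        rw [hsum, ofAdd_sum]
        apply Subgroup.prod_mem
        intro k _
        rw [ofAdd_nsmul]
        apply Subgroup.pow_mem
        exact h2 k
      apply MonoidHom.ext
      intro x
      exact hmem x.toAdd
    intro w
    exact DFunLike.congr_fun hh (Multiplicative.ofAdd w)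
  have e1 : φ (gv B i) * φ (gv B j) = φ (gw B (B i j)) * (φ (gv B j) * φ (gv B i)) := by
    rw [← map_mul, gv_mul B i j hB, map_mul, map_mul]
  have e2 : φ' (gv B' i) * φ' (gv B' j) = φ' (gw B' (B' i j)) * (φ' (gv B' j) * φ' (gv B' i)) := by
    rw [← map_mul, gv_mul B' i j hB', map_mul, map_mul]
  rw [← h1, ← h1, ← hw, e1] at e2
  have e3 := hφ (mul_right_cancel e2)
  exact congrArg Grp.w e3

/-- the generators `ge k` are commutators of the generators `gv i` if the form takes the value `e_k` -/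
theorem ge_eq (i j : Fin r) (k : Fin s) (h : B j i = 0) (hk : B i j = Pi.single k 1) :
    ge B k = gv B i * gv B j * (gv B j * gv B i)⁻¹ := by
  rw [gv_mul B i j h, mul_inv_cancel_right, hk]
  rfl

/-- the forms given by an injection `ι` of `Fin s` into the pairs `i < j` and a function `t` on the other pairs -/
noncomputable def tri (ι : Fin s → ((j : Fin r) × Fin j.val))
    (t : {x : ((j : Fin r) × Fin j.val) // ¬ ∃ k, ι k = x} → Fin s → ZMod p) : Fin r → Fin r → Fin s → ZMod p :=
  open Classical in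
  fun i j => if h : i.val < j.val then
    (if hx : ∃ k, ι k = ⟨j, ⟨i.val, h⟩⟩ then Pi.single hx.choose 1 else t ⟨⟨j, ⟨i.val, h⟩⟩, hx⟩) else 0

theorem tri_zero (ι : Fin s → ((j : Fin r) × Fin j.val))
    (t : {x : ((j : Fin r) × Fin j.val) // ¬ ∃ k, ι k = x} → Fin s → ZMod p) (i j : Fin r)
    (h : i.val < j.val) : tri ι t j i = 0 := by
  unfold tri
  rw [dif_neg (by omega)]

theorem tri_single (ι : Fin s → ((j : Fin r) × Fin j.val)) (hι : Function.Injective ι)
    (t : {x : ((j : Fin r) × Fin j.val) // ¬ ∃ k, ι k = x} → Fin s → ZMod p) (k : Fin s)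
    (i : Fin r) (hi : i.val < (ι k).1.val) (he : (⟨i.val, hi⟩ : Fin (ι k).1.val) = (ι k).2) :
    tri ι t i (ι k).1 = Pi.single k 1 := by
  have hx : ∃ k', ι k' = ⟨(ι k).1, ⟨i.val, hi⟩⟩ := ⟨k, by rw [he]⟩
  unfold tri
  rw [dif_pos hi, dif_pos hx]
  have h1 : hx.choose = k := by
    apply hι
    rw [hx.choose_spec, he]
  rw [h1]

theorem count (p : ℕ) (hp : p.Prime) (r s m : ℕ) (hs : s ≤ r * (r - 1) / 2) (U : Type) [Group U]
    (hU : Nat.card U = p ^ m)
    (hall : ∀ (P : Type) [Group P], Nat.card P = p ^ (r + s) → ∃ φ : P →* U, Function.Injective φ) :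
    s * (r * (r - 1) / 2 - s) ≤ m * r := by
  classical
  haveI : Fact p.Prime := ⟨hp⟩
  haveI : NeZero p := ⟨hp.pos.ne'⟩
  haveI : Finite U := Nat.finite_of_card_ne_zero (by rw [hU]; exact (pow_pos hp.pos m).ne')
  have h4 : Fintype.card ((j : Fin r) × Fin j.val) = r * (r - 1) / 2 := by
    rw [Fintype.card_sigma]
    simp only [Fintype.card_fin]
    rw [Fin.sum_univ_eq_sum_range (fun i => i) r, Finset.sum_range_id]
  obtain ⟨ι⟩ : Nonempty (Fin s ↪ ((j : Fin r) × Fin j.val)) := by
    apply Function.Embedding.nonempty_of_card_le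
    rw [h4, Fintype.card_fin]; exact hs
  have hι : Function.Injective (ι : Fin s → ((j : Fin r) × Fin j.val)) := ι.injective
  choose φ hφ using fun t : {x : ((j : Fin r) × Fin j.val) // ¬ ∃ k, ι k = x} → Fin s → ZMod p =>
    hall (Grp p r s (tri ι t)) (card_grp (tri ι t))
  let F : ({x : ((j : Fin r) × Fin j.val) // ¬ ∃ k, ι k = x} → Fin s → ZMod p) → (Fin r → U) := fun t i =>
    φ t (gv (tri ι t) i)
  have hF : Function.Injective F := by
    intro t t' h
    have h1 : ∀ i, φ t (gv (tri ι t) i) = φ t' (gv (tri ι t') i) := fun i => congrFun h i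
    have h2 : ∀ k, φ t (ge (tri ι t) k) = φ t' (ge (tri ι t') k) := by
      intro k
      let i : Fin r := ⟨(ι k).2.val, (ι k).2.isLt.trans (ι k).1.isLt⟩
      have hi : i.val < (ι k).1.val := (ι k).2.isLt
      rw [ge_eq (tri ι t) i (ι k).1 k (tri_zero ι t i _ hi) (tri_single ι hι t k i hi rfl),
        ge_eq (tri ι t') i (ι k).1 k (tri_zero ι t' i _ hi) (tri_single ι hι t' k i hi rfl)]
      simp only [map_mul, map_inv, h1]
    funext x
    obtain ⟨⟨j, ⟨i, hi⟩⟩, hx⟩ := x
    let i' : Fin r := ⟨i, hi.trans j.isLt⟩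
    have h3 := recover (tri ι t) (tri ι t') (φ t) (φ t') (hφ t) h1 h2 i' j
      (tri_zero ι t i' j hi) (tri_zero ι t' i' j hi)
    unfold tri at h3
    rw [dif_pos hi, dif_pos hi, dif_neg hx, dif_neg hx] at h3
    exact h3
  have hcard := Nat.card_le_card_of_injective F hF
  have h6 : Nat.card {x : ((j : Fin r) × Fin j.val) // ¬ ∃ k, ι k = x} = r * (r - 1) / 2 - s := by
    rw [Nat.card_eq_fintype_card, Fintype.card_subtype_compl, h4]
    congr 1
    have : Fintype.card {x : ((j : Fin r) × Fin j.val) // ∃ k, ι k = x} = Fintype.card (Fin s) :=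
      Fintype.card_congr (Equiv.ofInjective ι hι).symm
    rw [this, Fintype.card_fin]
  rw [Nat.card_fun, Nat.card_fun, Nat.card_fun, Nat.card_fin, Nat.card_fin, Nat.card_zmod,
    h6, hU, ← pow_mul, ← pow_mul] at hcard
  exact (Nat.pow_le_pow_iff_right hp.one_lt).mp hcard

/-- For every prime `p` let `f n` be the least `m` such that some group of order `p ^ m` contains a
copy of every group of order `p ^ n`.  Then `t (t - 3) ≤ 2 f n` with `t = ⌊n / 2⌋`, so that
`f n / n ^ k → ∞` for every real `k < 2`. -/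
theorem result :
    ∀ p : ℕ, p.Prime → ∀ f : ℕ → ℕ,
      (∀ n : ℕ, IsLeast
        {m : ℕ | ∃ (U : Type) (_ : Group U), Nat.card U = p ^ m ∧
          ∀ (P : Type) [Group P], Nat.card P = p ^ n →
            ∃ φ : P →* U, Function.Injective φ} (f n)) →
      (∀ r s : ℕ, s ≤ r * (r - 1) / 2 → s * (r * (r - 1) / 2 - s) ≤ f (r + s) * r) ∧
      (∀ n : ℕ, (n / 2) * ((n / 2) - 3) ≤ 2 * f n) ∧
      (∀ k : ℝ, k < 2 →
        Tendsto (fun n : ℕ => (f n : ℝ) / (n : ℝ) ^ k) atTop atTop) := by
  intro p hp f hf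
  have h1 : ∀ r s : ℕ, s ≤ r * (r - 1) / 2 → s * (r * (r - 1) / 2 - s) ≤ f (r + s) * r := by
    intro r s hs
    obtain ⟨U, _, hU, hall⟩ := (hf (r + s)).1
    exact count p hp r s _ hs U hU hall
  have h2 : ∀ n : ℕ, (n / 2) * ((n / 2) - 3) ≤ 2 * f n := by
    intro n
    obtain ⟨t, e, he, hte, he1⟩ : ∃ t e, n = 2 * t + e ∧ n / 2 = t ∧ e ≤ 1 := ⟨n / 2, n % 2, by omega, rfl, by omega⟩
    rw [hte]
    rcases Nat.lt_or_ge t 4 with ht | ht
    · have : t - 3 = 0 := by omega
      rw [this]; simp
    obtain ⟨u, rfl⟩ : ∃ u, t = u + 4 := ⟨t - 4, by omega⟩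
    -- r = t + e, s = t
    have hdiv : 2 * ((u + 4 + e) * (u + 4 + e - 1) / 2) = (u + 4 + e) * (u + 4 + e - 1) := by
      have := Nat.even_mul_pred_self (u + 4 + e)
      exact Nat.mul_div_cancel' this.two_dvd
    set D := (u + 4 + e) * (u + 4 + e - 1) / 2 with hD
    have hsub : u + 4 + e - 1 = u + 3 + e := by omega
    rw [hsub] at hdiv
    have hDs : u + 4 ≤ D := by nlinarith
    have h3 := h1 (u + 4 + e) (u + 4) (by rw [← hD]; exact hDs)
    rw [← hD, show u + 4 + e + (u + 4) = n by omega] at h3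
    obtain ⟨d, hd⟩ : ∃ d, D = u + 4 + d := ⟨D - (u + 4), by omega⟩
    rw [hd] at h3 hdiv
    have h4 : u + 4 + d - (u + 4) = d := by omega
    rw [h4] at h3
    have h5 : u + 4 - 3 = u + 1 := by omega
    rw [h5]
    -- (u+4) d ≤ f n (u+4+e), 2 (u+4+d) = (u+4+e)(u+3+e)
    have h6 : (u + 4) * (u + 1) * (u + 4 + e) ≤ 2 * f n * (u + 4 + e) := by
      interval_cases e
      · have h7 : 2 * d = (u + 4) * (u + 1) := by
          have : 2 * (u + 4 + d) = (u + 4) * (u + 3) := by simpa using hdiv
          nlinarith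
        calc (u + 4) * (u + 1) * (u + 4 + 0) = 2 * ((u + 4) * d) := by rw [← h7]; ring
          _ ≤ 2 * (f n * (u + 4 + 0)) := Nat.mul_le_mul_left _ h3
          _ = _ := by ring
      · have h7 : 2 * d = (u + 4) * (u + 3) := by
          have : 2 * (u + 4 + d) = (u + 5) * (u + 4) := by simpa using hdiv
          nlinarith
        calc (u + 4) * (u + 1) * (u + 4 + 1) ≤ (u + 4) * ((u + 4) * (u + 3)) := by nlinarith
          _ = 2 * ((u + 4) * d) := by rw [← h7]; ring
          _ ≤ 2 * (f n * (u + 4 + 1)) := Nat.mul_le_mul_left _ h3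
          _ = _ := by ring
    exact Nat.le_of_mul_le_mul_right h6 (by omega)
  refine ⟨h1, h2, ?_⟩
  intro k hk
  have hlim : Tendsto (fun n : ℕ => (1 / 200 : ℝ) * (n : ℝ) ^ (2 - k)) atTop atTop :=
    Tendsto.const_mul_atTop (by norm_num) ((tendsto_rpow_atTop (by linarith)).comp tendsto_natCast_atTop_atTop)
  refine tendsto_atTop_mono' atTop ?_ hlim
  filter_upwards [eventually_ge_atTop 16] with n hn
  have hn0 : (0 : ℝ) < n := by exact_mod_cast (by omega : 0 < n)
  have h6 : (n : ℝ) ^ 2 / 200 ≤ f n := by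
    have h7 := h2 n
    obtain ⟨t, ht⟩ : ∃ t, n / 2 = t + 3 := ⟨n / 2 - 3, by omega⟩
    rw [ht, Nat.add_sub_cancel] at h7
    have h8 : n ≤ 2 * (t + 3) + 1 := by omega
    have h9 : t * t ≤ 2 * f n := (Nat.mul_le_mul_right _ (by omega)).trans h7
    have h10 : (t : ℝ) * t ≤ 2 * f n := by exact_mod_cast h9
    have h11 : (n : ℝ) ≤ 2 * (t + 3) + 1 := by exact_mod_cast h8
    have h12 : (n : ℝ) / 4 ≤ t := by
      have h13 : (16 : ℝ) ≤ n := by exact_mod_cast hn
      linarith
    have h14 : ((n : ℝ) / 4) ^ 2 ≤ (t : ℝ) ^ 2 := by gcongr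
    nlinarith
  rw [Real.rpow_sub hn0, Real.rpow_two]
  calc (1 / 200 : ℝ) * ((n : ℝ) ^ 2 / (n : ℝ) ^ k) = ((n : ℝ) ^ 2 / 200) / (n : ℝ) ^ k := by ring
    _ ≤ _ := by gcongr

end Pool.Agent.Results.MP_aa96c4_al.QuadraticLowerBound
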