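import Mathlib

/-!
# An upper bound for the smallest universal `p`-group for groups of order `p ^ n`

For every prime `p` and `n ≥ 1` some group of order `p ^ (n (n p^K + (p^K - 1)/(p - 1)))`, `K = ⌊(n-1)/2⌋`,
contains every group of order `p ^ n`.  Every central element `z ≠ 1` of a `p`-group `P` is outside the kernel of
a linear character of some subgroup `H ∋ z` with `|P : H|^2 ≤ |P : Z(P)|` (`polar`); the corresponding monomial
homomorphisms embed `P` in a power of a monomial group, whose Sylow `p`-subgroup is the universal group.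
-/

set_option autoImplicit false
open Filter Topology

namespace Pool.Agent.Results.MP_aa96c4_al.SquareRootUpperBound

open Subgroup

/-- characters separate points of a finite commutative group -/
theorem char_sep (P : Type) [Group P] [Finite P] (hc : ∀ a b : P, a * b = b * a) (z : P) (hz : z ≠ 1) :
    ∃ l : P →* ℂˣ, l z ≠ 1 := by
  letI : CommGroup P := { (inferInstance : Group P) with mul_comm := hc }
  obtain ⟨φ, hφ⟩ := CommGroup.exists_apply_ne_one_of_hasEnoughRootsOfUnity P ℂ hz
  exact ⟨φ, hφ⟩

theorem polar (p : ℕ) [hp : Fact p.Prime] : ∀ (N : ℕ) (P : Type) [Group P] [Finite P],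
    Nat.card P = N → IsPGroup p P → ∀ z : P, z ∈ center P → z ≠ 1 →
    ∃ (H : Subgroup P) (hz : z ∈ H) (l : H →* ℂˣ), l ⟨z, hz⟩ ≠ 1 ∧
      H.index ^ 2 ≤ (center P).index := by
  intro N
  induction N using Nat.strong_induction_on with
  | _ N ih =>
  intro P _ _ hcard hP z hzc hz1
  have hp1 : 1 < p := hp.out.one_lt
  by_cases hcase : ∃ w ∈ center P, w ≠ 1 ∧ z ∉ zpowers w
  · obtain ⟨w, hwc, hw1, hzw⟩ := hcase
    haveI hn : (zpowers w).Normal := by
      constructor
      intro a ha g
      obtain ⟨k, rfl⟩ := mem_zpowers_iff.mp ha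
      have : g * w ^ k * g⁻¹ = w ^ k := by
        have h1 : w ^ k ∈ center P := Subgroup.zpow_mem _ hwc k
        rw [mem_center_iff.mp h1 g]; group
      rw [this]; exact ha
    have hlt : Nat.card (P ⧸ zpowers w) < N := by
      have h1 := Subgroup.card_eq_card_quotient_mul_card_subgroup (zpowers w)
      have h2 : 1 < Nat.card (zpowers w) := by
        rw [Subgroup.one_lt_card_iff_ne_bot]
        intro h
        exact hw1 (by simpa using (zpowers_eq_bot.mp h))
      have h3 : 0 < Nat.card (P ⧸ zpowers w) := Nat.card_pos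
      rw [← hcard, h1]
      nlinarith
    have hzq : (QuotientGroup.mk' (zpowers w)) z ≠ 1 := by
      intro h
      apply hzw
      rw [← QuotientGroup.ker_mk' (zpowers w)]
      exact h
    have hzqc : (QuotientGroup.mk' (zpowers w)) z ∈ center (P ⧸ zpowers w) := by
      rw [mem_center_iff]
      intro g
      obtain ⟨g, rfl⟩ := QuotientGroup.mk'_surjective _ g
      rw [← map_mul, ← map_mul, mem_center_iff.mp hzc g]
    obtain ⟨H, hz, l, hl, hidx⟩ := ih _ hlt (P ⧸ zpowers w) rfl (hP.to_quotient _) _ hzqc hzq
    refine ⟨H.comap (QuotientGroup.mk' (zpowers w)), hz,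
      l.comp ((QuotientGroup.mk' (zpowers w)).subgroupComap H), ?_, ?_⟩
    · exact hl
    · rw [Subgroup.index_comap_of_surjective _ (QuotientGroup.mk'_surjective _)]
      refine hidx.trans ?_
      rw [← Subgroup.index_comap_of_surjective (center (P ⧸ zpowers w)) (QuotientGroup.mk'_surjective (zpowers w))]
      apply Subgroup.index_antitone
      intro a ha
      rw [Subgroup.mem_comap, mem_center_iff]
      intro g
      obtain ⟨g, rfl⟩ := QuotientGroup.mk'_surjective _ g
      rw [← map_mul, ← map_mul, mem_center_iff.mp ha g]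
  · push Not at hcase
    by_cases hab : center P = ⊤
    · obtain ⟨l, hl⟩ := char_sep P (fun a b => by
        have : b ∈ center P := by rw [hab]; trivial
        exact mem_center_iff.mp this a) z hz1
      refine ⟨⊤, trivial, l.comp (⊤ : Subgroup P).subtype, hl, ?_⟩
      rw [hab]; simp
    · -- the non-abelian case
      have hzp : z ^ p = 1 := by
        by_contra h
        have h1 := hcase (z ^ p) (Subgroup.pow_mem _ hzc p) h
        obtain ⟨k, hk⟩ := mem_zpowers_iff.mp h1
        have h2 : z ^ ((p : ℤ) * k - 1) = 1 := by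
          rw [zpow_sub, zpow_mul, zpow_natCast, hk]; group
        obtain ⟨e, he⟩ := (hP.exists_card_eq : ∃ n, Nat.card P = p ^ n)
        have h3 : (orderOf z : ℤ) ∣ (p : ℤ) * k - 1 := orderOf_dvd_iff_zpow_eq_one.mpr h2
        have h4 : orderOf z ∣ p ^ e := he ▸ orderOf_dvd_natCard z
        obtain ⟨j, _, hj⟩ := (Nat.dvd_prime_pow hp.out).mp h4
        rcases Nat.eq_zero_or_pos j with hj0 | hj0
        · rw [hj0, pow_zero] at hj
          exact hz1 (orderOf_eq_one_iff.mp hj)
        · have h5 : (p : ℤ) ∣ orderOf z := by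
            rw [hj]; exact_mod_cast dvd_pow_self p hj0.ne'
          have h6 : (p : ℤ) ∣ 1 := by
            have := dvd_sub (Dvd.intro k rfl : (p : ℤ) ∣ (p : ℤ) * k) (h5.trans h3)
            simpa using this
          have h7 : p ∣ 1 := by exact_mod_cast h6
          have := Nat.le_of_dvd one_pos h7
          omega
      -- a nontrivial central element of order p of the quotient by the centre
      haveI : Nontrivial (P ⧸ center P) := by
        rw [QuotientGroup.nontrivial_iff]; exact hab
      have hQ : IsPGroup p (P ⧸ center P) := hP.to_quotient _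
      haveI : Nontrivial (center (P ⧸ center P)) := hQ.center_nontrivial
      have hQc : IsPGroup p (center (P ⧸ center P)) := hQ.to_subgroup _
      obtain ⟨xq, hxq⟩ : ∃ x : center (P ⧸ center P), orderOf x = p := by
        apply exists_prime_orderOf_dvd_card' p
        obtain ⟨e, he, hh⟩ := hQc.nontrivial_iff_card.mp inferInstance
        rw [hh]; exact dvd_pow_self p he.ne'
      obtain ⟨x, hx⟩ := QuotientGroup.mk'_surjective (center P) (xq : P ⧸ center P)
      have hx1 : x ∉ center P := by
        intro h
        have h1 : (QuotientGroup.mk' (center P)) x = 1 := by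
          rw [← MonoidHom.mem_ker, QuotientGroup.ker_mk']; exact h
        rw [h1] at hx
        have : xq = 1 := by ext; exact hx.symm
        rw [this, orderOf_one] at hxq
        omega
      have hxp : x ^ p ∈ center P := by
        rw [← QuotientGroup.ker_mk' (center P), MonoidHom.mem_ker, map_pow, hx]
        have : xq ^ p = 1 := by rw [← hxq]; exact pow_orderOf_eq_one xq
        exact_mod_cast congrArg Subtype.val this
      have hcomm : ∀ g : P, x * g * x⁻¹ * g⁻¹ ∈ center P := by
        intro g
        rw [← QuotientGroup.ker_mk' (center P), MonoidHom.mem_ker, map_mul, map_mul, map_mul, map_inv, map_inv, hx]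
        have := mem_center_iff.mp xq.2 (QuotientGroup.mk' (center P) g)
        rw [← this]; group
      let β : P →* P :=
        { toFun := fun g => x * g * x⁻¹ * g⁻¹
          map_one' := by group
          map_mul' := by
            intro a b
            have h1 := mem_center_iff.mp (hcomm b) a
            calc x * (a * b) * x⁻¹ * (a * b)⁻¹ = x * a * x⁻¹ * (x * b * x⁻¹ * b⁻¹) * a⁻¹ := by group
              _ = x * a * x⁻¹ * (a⁻¹ * a * (x * b * x⁻¹ * b⁻¹)) * a⁻¹ := by group
              _ = x * a * x⁻¹ * a⁻¹ * (a * (x * b * x⁻¹ * b⁻¹)) * a⁻¹ := by group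
              _ = x * a * x⁻¹ * a⁻¹ * ((x * b * x⁻¹ * b⁻¹) * a) * a⁻¹ := by rw [h1]
              _ = _ := by group }
      have hβ : ∀ g, β g = x * g * x⁻¹ * g⁻¹ := fun g => rfl
      have hβp : ∀ g, (β g) ^ p = 1 := by
        intro g
        have key : ∀ k : ℕ, x ^ k * g = (β g) ^ k * (g * x ^ k) := by
          intro k
          induction k with
          | zero => simp
          | succ k ihk =>
            have h1 : β g ∈ center P := hcomm g
            have h2 : x * g = β g * (g * x) := by rw [hβ]; group
            have h3 : x * (β g) ^ k = (β g) ^ k * x := mem_center_iff.mp (Subgroup.pow_mem _ h1 k) x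
            calc x ^ (k + 1) * g = x * (x ^ k * g) := by rw [pow_succ']; group
              _ = x * ((β g) ^ k * (g * x ^ k)) := by rw [ihk]
              _ = (x * (β g) ^ k) * (g * x ^ k) := by group
              _ = ((β g) ^ k * x) * (g * x ^ k) := by rw [h3]
              _ = (β g) ^ k * (x * g) * x ^ k := by group
              _ = (β g) ^ k * (β g * (g * x)) * x ^ k := by rw [h2]
              _ = (β g) ^ (k + 1) * (g * x ^ (k + 1)) := by rw [pow_succ (β g), pow_succ' x]; group
        have h1 := key p
        have h2 := mem_center_iff.mp hxp g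
        rw [← h2] at h1
        have h3 : (1 : P) * (g * x ^ p) = (β g) ^ p * (g * x ^ p) := by rw [one_mul]; exact h1
        exact (mul_right_cancel h3).symm
      have hrange : β.range ≤ zpowers z := by
        rintro _ ⟨g, rfl⟩
        by_cases h : β g = 1
        · rw [h]; exact one_mem _
        · have h1 := hcase (β g) (hcomm g) h
          have h2 : orderOf (β g) = p := orderOf_eq_prime (hβp g) h
          have h3 : orderOf z = p := orderOf_eq_prime hzp hz1
          have h4 : zpowers z ≤ zpowers (β g) := by rwa [zpowers_le]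
          have h5 : zpowers z = zpowers (β g) := by
            apply Subgroup.eq_of_le_of_card_ge h4
            rw [Nat.card_zpowers, Nat.card_zpowers, h2, h3]
          rw [h5]; exact mem_zpowers _
      set C := β.ker with hC
      have hCidx : C.index ≤ p := by
        rw [hC, Subgroup.index_ker]
        have h3 : orderOf z = p := orderOf_eq_prime hzp hz1
        calc Nat.card β.range ≤ Nat.card (zpowers z) := Subgroup.card_le_of_le hrange
          _ = p := by rw [Nat.card_zpowers, h3]
      have hCx : ∀ g : P, g ∈ C ↔ x * g = g * x := by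
        intro g
        rw [hC, MonoidHom.mem_ker, hβ]
        constructor
        · intro h
          have : x * g * x⁻¹ = g := by rwa [mul_inv_eq_one] at h
          rwa [mul_inv_eq_iff_eq_mul] at this
        · intro h
          rw [h]; group
      have hxC : x ∈ C := (hCx x).mpr rfl
      have hcC : center P ≤ C := by
        intro a ha
        rw [hCx]; exact (mem_center_iff.mp ha x)
      have hClt : Nat.card C < N := by
        rw [← hcard]
        have h1 : C ≠ ⊤ := by
          intro h
          apply hx1
          rw [mem_center_iff]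
          intro g
          have : g ∈ C := by rw [h]; trivial
          exact ((hCx g).mp this).symm
        by_contra h2
        push Not at h2
        exact h1 (Subgroup.eq_top_of_le_card C h2)
      have hzC : z ∈ C := hcC hzc
      obtain ⟨H, hzH, l, hl, hidx⟩ := ih _ hClt C rfl (hP.to_subgroup _) ⟨z, hzC⟩ (by
        rw [mem_center_iff]
        intro g
        ext
        exact mem_center_iff.mp hzc g) (by
        intro h
        exact hz1 (congrArg Subtype.val h))
      -- the subgroup of P
      have hidxH : (H.map C.subtype).index = H.index * C.index := by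
        rw [Subgroup.index_map_subtype]
      have hidxZ : ((center C).map C.subtype).index = (center C).index * C.index := by
        rw [Subgroup.index_map_subtype]
      have hle : center P ≤ (center C).map C.subtype := by
        intro a ha
        refine ⟨⟨a, hcC ha⟩, ?_, rfl⟩
        show _ ∈ center C
        rw [mem_center_iff]
        intro g
        ext
        exact mem_center_iff.mp ha g
      have hxZ : x ∈ (center C).map C.subtype := by
        refine ⟨⟨x, hxC⟩, ?_, rfl⟩
        show _ ∈ center C
        rw [mem_center_iff]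
        intro g
        ext
        exact ((hCx g).mp g.2).symm
      have hrel : p ≤ (center P).relIndex ((center C).map C.subtype) := by
        have h1 : (center P).relIndex ((center C).map C.subtype) ∣ Nat.card P := by
          exact ((Subgroup.relIndex_dvd_card _ _).trans (Subgroup.card_subgroup_dvd_card _))
        obtain ⟨e, he⟩ := (hP.exists_card_eq : ∃ n, Nat.card P = p ^ n)
        rw [he] at h1
        obtain ⟨j, _, hj⟩ := (Nat.dvd_prime_pow hp.out).mp h1
        rcases Nat.eq_zero_or_pos j with hj0 | hj0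
        · rw [hj0, pow_zero, Subgroup.relIndex_eq_one] at hj
          exact absurd (hj hxZ) hx1
        · rw [hj]
          exact Nat.le_self_pow hj0.ne' p
      refine ⟨H.map C.subtype, ⟨⟨z, hzC⟩, hzH, rfl⟩,
        l.comp (H.equivMapOfInjective C.subtype C.subtype_injective).symm.toMonoidHom, ?_, ?_⟩
      · have : (H.equivMapOfInjective C.subtype C.subtype_injective).symm ⟨z, ⟨⟨z, hzC⟩, hzH, rfl⟩⟩ = ⟨⟨z, hzC⟩, hzH⟩ := by
          rw [MulEquiv.symm_apply_eq]
          rfl
        simp only [MonoidHom.comp_apply]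
        show l ((H.equivMapOfInjective C.subtype C.subtype_injective).symm ⟨z, ⟨⟨z, hzC⟩, hzH, rfl⟩⟩) ≠ 1
        rw [this]; exact hl
      · rw [hidxH]
        have h1 := Subgroup.relIndex_mul_index hle
        rw [← h1, hidxZ]
        calc (H.index * C.index) ^ 2 = H.index ^ 2 * C.index * C.index := by ring
          _ ≤ (center C).index * p * C.index := by gcongr
          _ = p * ((center C).index * C.index) := by ring
          _ ≤ _ := by gcongr

/-- the action of the permutations of `Y` on the functions `Y → C` -/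
def act (Y C : Type) [CommGroup C] : Equiv.Perm Y →* MulAut (Y → C) where
  toFun σ :=
    { toFun := fun f y => f (σ⁻¹ y)
      invFun := fun f y => f (σ y)
      left_inv := by intro f; funext y; simp
      right_inv := by intro f; funext y; simp
      map_mul' := by intro f g; rfl }
  map_one' := by ext f y; rfl
  map_mul' := by intro a b; ext f y; simp [Equiv.Perm.mul_apply]

/-- the monomial group -/
abbrev Mon (Y C : Type) [CommGroup C] : Type := (Y → C) ⋊[act Y C] (Equiv.Perm Y)

theorem mono (P : Type) [Group P] (H : Subgroup P) (C : Type) [CommGroup C] (l : H →* C)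
    (Y : Type) (e : Y ≃ P ⧸ H) : ∃ Φ : P →* Mon Y C, ∀ (z : P) (hz : z ∈ center P) (hzH : z ∈ H),
      Φ z = 1 → l ⟨z, hzH⟩ = 1 := by
  classical
  let s : Y → P := fun y => (e y).out
  let σ : P → Y → Y := fun g y => e.symm (g • e y)
  have hs : ∀ y, (s y : P ⧸ H) = e y := fun y => Quotient.out_eq' (e y)
  have hσ : ∀ g y, e (σ g y) = g • e y := fun g y => e.apply_symm_apply _
  have hmem : ∀ g y, (s (σ g y))⁻¹ * (g * s y) ∈ H := by
    intro g y
    rw [← QuotientGroup.eq, hs, hσ, ← hs y]
    rfl
  have hσ1 : ∀ y, σ 1 y = y := by intro y; simp [σ]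
  have hσm : ∀ g h y, σ (g * h) y = σ g (σ h y) := by
    intro g h y; simp [σ, mul_smul]
  let S : P → Equiv.Perm Y := fun g =>
    { toFun := σ g
      invFun := σ g⁻¹
      left_inv := by intro y; rw [← hσm]; simp [hσ1]
      right_inv := by intro y; rw [← hσm]; simp [hσ1] }
  let c : P → Y → H := fun g y => ⟨_, hmem g y⟩
  have hc : ∀ g h y, c (g * h) y = c g (σ h y) * c h y := by
    intro g h y
    ext
    simp only [c, Subgroup.coe_mul]
    rw [hσm]
    group
  have hSi : ∀ g y, (S g)⁻¹ y = σ g⁻¹ y := fun g y => rfl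
  have hSm : ∀ g h, S (g * h) = S g * S h := by
    intro g h; ext y; exact hσm g h y
  let Φ : P →* Mon Y C := MonoidHom.mk'
    (fun g => ⟨fun y => l (c g (σ g⁻¹ y)), S g⟩) (by
      intro g h
      apply SemidirectProduct.ext
      · funext y
        show l (c (g * h) (σ (g * h)⁻¹ y)) = l (c g (σ g⁻¹ y)) * l (c h (σ h⁻¹ ((S g)⁻¹ y)))
        rw [hSi, ← map_mul, hc, mul_inv_rev, hσm]
        congr 2
        rw [← hσm h, mul_inv_cancel, hσ1]
      · exact hSm g h)
  refine ⟨Φ, ?_⟩
  intro z hz hzH h
  have h1 : Φ z = ⟨fun y => l (c z (σ z⁻¹ y)), S z⟩ := rfl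
  rw [h1] at h
  have h2 : (fun y => l (c z (σ z⁻¹ y))) = 1 := congrArg SemidirectProduct.left h
  have h3 : S z = 1 := congrArg SemidirectProduct.right h
  let y : Y := e.symm ((1 : P) : P ⧸ H)
  have h4 := congrFun h2 (σ z y)
  simp only [Pi.one_apply] at h4
  rw [← hσm, inv_mul_cancel, hσ1] at h4
  have h5 : σ z y = y := by
    have := congrArg (fun t : Equiv.Perm Y => t y) h3
    exact this
  have h6 : c z y = ⟨z, hzH⟩ := by
    ext
    simp only [c]
    rw [h5, ← mem_center_iff.mp hz (s y)]
    group
  rw [← h6]; exact h4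

/-- families of homomorphisms -/
theorem family (p : ℕ) [hp : Fact p.Prime] (n : ℕ) (P : Type) [Group P] (hcard : Nat.card P = p ^ n)
    (G : Type) [Group G]
    (hG : ∀ z ∈ center P, orderOf z = p → ∃ Φ : P →* G, Φ z ≠ 1) :
    ∃ Ψ : P →* (Fin n → G), Function.Injective Ψ := by
  haveI : Finite P := Nat.finite_of_card_ne_zero (by rw [hcard]; exact (pow_pos hp.out.pos n).ne')
  have hP : IsPGroup p P := IsPGroup.of_card hcard
  have key : ∀ j : ℕ, ∃ L : Fin j → (P →* G), (MonoidHom.pi L).ker = ⊥ ∨
      Nat.card (MonoidHom.pi L).ker * p ^ j ≤ p ^ n := by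
    intro j
    induction j with
    | zero =>
      refine ⟨fun i => i.elim0, Or.inr ?_⟩
      rw [pow_zero, mul_one, ← hcard]
      exact Subgroup.card_le_card_group _
    | succ j ih =>
      obtain ⟨L, hL⟩ := ih
      by_cases hb : (MonoidHom.pi L).ker = ⊥
      · refine ⟨Fin.cons 1 L, Or.inl ?_⟩
        rw [eq_bot_iff] at hb ⊢
        intro x hx
        apply hb
        rw [MonoidHom.mem_ker] at hx ⊢
        funext i
        exact congrFun hx i.succ
      · have hL' := hL.resolve_left hb
        set K := (MonoidHom.pi L).ker with hK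
        -- K meets the centre
        haveI : Nontrivial K := (Subgroup.nontrivial_iff_ne_bot K).mpr hb
        obtain ⟨z, hzK, hzc, hzo⟩ : ∃ z ∈ K, z ∈ center P ∧ orderOf z = p := by
          have h1 : K ⊓ center P ≠ ⊥ := by
            intro h
            have hfix := (hP.of_equiv (ConjAct.toConjAct (G := P))).card_modEq_card_fixedPoints (α := K)
            have h2 : Nat.card (MulAction.fixedPoints (ConjAct P) K) = 1 := by
              rw [Nat.card_eq_one_iff_unique]
              constructor
              · constructor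
                rintro ⟨a, ha⟩ ⟨b, hb'⟩
                have hh : ∀ a : K, a ∈ MulAction.fixedPoints (ConjAct P) K → a = 1 := by
                  intro a ha
                  have : (a : P) ∈ K ⊓ center P := by
                    refine ⟨a.2, ?_⟩
                    show (a : P) ∈ center P
                    rw [mem_center_iff]
                    intro g
                    have h3 := congrArg Subtype.val (ha (ConjAct.toConjAct g))
                    have h4 : g * (a : P) * g⁻¹ = a := h3
                    rwa [mul_inv_eq_iff_eq_mul] at h4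
                  rw [h, Subgroup.mem_bot] at this
                  exact Subtype.ext this
                ext
                simp [hh a ha, hh b hb']
              · refine ⟨⟨1, ?_⟩⟩
                intro g
                ext
                show (ConjAct.ofConjAct g) * 1 * (ConjAct.ofConjAct g)⁻¹ = 1
                group
            rw [h2] at hfix
            obtain ⟨e, he, hh⟩ := (hP.to_subgroup K).nontrivial_iff_card.mp inferInstance
            rw [hh] at hfix
            have h5 : p ∣ 1 := by
              have := (Nat.modEq_iff_dvd' (Nat.one_le_pow _ _ hp.out.pos)).mp hfix.symm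
              have h6 : p ∣ p ^ e := dvd_pow_self p he.ne'
              exact (Nat.dvd_sub_iff_right (Nat.one_le_pow _ _ hp.out.pos) h6).mp this
            exact hp.out.one_lt.ne' (Nat.dvd_one.mp h5)
          haveI : Nontrivial (K ⊓ center P : Subgroup P) := (Subgroup.nontrivial_iff_ne_bot _).mpr h1
          obtain ⟨w, hw⟩ : ∃ x : (K ⊓ center P : Subgroup P), orderOf x = p := by
            apply exists_prime_orderOf_dvd_card' p
            obtain ⟨e, he, hh⟩ := (hP.to_subgroup (K ⊓ center P)).nontrivial_iff_card.mp inferInstance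
            rw [hh]; exact dvd_pow_self p he.ne'
          refine ⟨w, w.2.1, w.2.2, ?_⟩
          rw [← hw]; exact orderOf_submonoid w
        obtain ⟨Φ, hΦ⟩ := hG z hzc hzo
        refine ⟨Fin.cons Φ L, Or.inr ?_⟩
        set K' := (MonoidHom.pi (Fin.cons Φ L : Fin (j + 1) → (P →* G))).ker with hK'
        have hle : K' ≤ K := by
          intro x hx
          rw [hK', MonoidHom.mem_ker] at hx
          rw [hK, MonoidHom.mem_ker]
          funext i
          exact congrFun hx i.succ
        have hz' : z ∉ K' := by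
          intro hx
          rw [hK', MonoidHom.mem_ker] at hx
          exact hΦ (congrFun hx 0)
        have hrel : p ≤ K'.relIndex K := by
          have h1 : K'.relIndex K ∣ Nat.card P :=
            (Subgroup.relIndex_dvd_card _ _).trans (Subgroup.card_subgroup_dvd_card _)
          rw [hcard] at h1
          obtain ⟨i, _, hi⟩ := (Nat.dvd_prime_pow hp.out).mp h1
          rcases Nat.eq_zero_or_pos i with hi0 | hi0
          · rw [hi0, pow_zero, Subgroup.relIndex_eq_one] at hi
            exact absurd (hi hzK) hz'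
          · rw [hi]
            exact Nat.le_self_pow hi0.ne' p
        have hmul : Nat.card K' * K'.relIndex K = Nat.card K := by
          have h1 := Subgroup.card_mul_index (K'.subgroupOf K)
          have h2 : Nat.card (K'.subgroupOf K) = Nat.card K' :=
            Nat.card_congr (Subgroup.subgroupOfEquivOfLe hle).toEquiv
          rw [h2] at h1
          exact h1
        calc Nat.card K' * p ^ (j + 1) = (Nat.card K' * p) * p ^ j := by ring
          _ ≤ (Nat.card K' * K'.relIndex K) * p ^ j := by gcongr
          _ = Nat.card K * p ^ j := by rw [hmul]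
          _ ≤ p ^ n := hL'
  obtain ⟨L, hL⟩ := key n
  refine ⟨MonoidHom.pi L, ?_⟩
  rw [← MonoidHom.ker_eq_bot_iff]
  rcases hL with h | h
  · exact h
  · have h1 : Nat.card (MonoidHom.pi L).ker ≤ 1 := by
      have := Nat.le_of_mul_le_mul_right (a := Nat.card (MonoidHom.pi L).ker) (b := 1) (c := p ^ n)
        (by simpa using h) (pow_pos hp.out.pos n)
      exact this
    exact (Subgroup.card_le_one_iff_eq_bot _).mp h1

/-- the cyclic group of order `p ^ n`, as roots of unity -/
abbrev Cyc (p n : ℕ) : Type := rootsOfUnity (p ^ n) ℂ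

/-- the exponent of the bound -/
def bound (p n : ℕ) : ℕ := n * (n * p ^ ((n - 1) / 2) + (p ^ ((n - 1) / 2) - 1) / (p - 1))

theorem embed (p : ℕ) [hp : Fact p.Prime] (n : ℕ) (hn : 1 ≤ n) (P : Type) [Group P]
    (hcard : Nat.card P = p ^ n) :
    ∃ Ψ : P →* (Fin n → Mon (Fin (p ^ ((n - 1) / 2))) (Cyc p n)), Function.Injective Ψ := by
  haveI : Finite P := Nat.finite_of_card_ne_zero (by rw [hcard]; exact (pow_pos hp.out.pos n).ne')
  have hP : IsPGroup p P := IsPGroup.of_card hcard
  have hp1 : 1 < p := hp.out.one_lt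
  apply family p n P hcard
  intro z hzc hzo
  have hz1 : z ≠ 1 := by
    rintro rfl
    rw [orderOf_one] at hzo; omega
  obtain ⟨H, hz, l, hl, hidx⟩ := polar p _ P rfl hP z hzc hz1
  -- the index of H is `p ^ k` with `k ≤ (n-1)/2`
  have hHc : H.index ∣ p ^ n := hcard ▸ H.index_dvd_card
  obtain ⟨k, hkn, hk⟩ := (Nat.dvd_prime_pow hp.out).mp hHc
  have hcen : (center P).index * p ≤ p ^ n := by
    rw [← hcard, ← (center P).index_mul_card]
    apply Nat.mul_le_mul_left
    have h1 : zpowers z ≤ center P := by rwa [zpowers_le]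
    calc p = Nat.card (zpowers z) := by rw [Nat.card_zpowers, hzo]
      _ ≤ _ := Subgroup.card_le_of_le h1
  have h2k : 2 * k + 1 ≤ n := by
    have h1 : p ^ (2 * k + 1) ≤ p ^ n := by
      calc p ^ (2 * k + 1) = (p ^ k) ^ 2 * p := by ring
        _ = H.index ^ 2 * p := by rw [hk]
        _ ≤ (center P).index * p := by gcongr
        _ ≤ _ := hcen
    exact (Nat.pow_le_pow_iff_right hp1).mp h1
  set K := (n - 1) / 2 with hK
  have hkK : k ≤ K := by omega
  have hKn : K + 1 ≤ n := by omega
  -- card of H
  have hHcard : Nat.card H = p ^ (n - k) := by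
    have h1 := H.card_mul_index
    rw [hk, hcard] at h1
    have h2 : p ^ (n - k) * p ^ k = p ^ n := by rw [← pow_add]; congr 1; omega
    exact Nat.eq_of_mul_eq_mul_right (pow_pos hp.out.pos k) (h1.trans h2.symm)
  -- a smaller subgroup
  obtain ⟨H₁, hH₁, hzH₁⟩ := Sylow.exists_subgroup_card_pow_prime_le p
    (show p ^ (n - K) ∣ Nat.card H by rw [hHcard]; exact pow_dvd_pow p (by omega))
    (zpowers (⟨z, hz⟩ : H)) (n := 1) (by
      rw [Nat.card_zpowers, pow_one, ← hzo, Subgroup.orderOf_mk]) (by omega)
  set H₂ : Subgroup P := H₁.map H.subtype with hH₂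
  have hzH₂ : z ∈ H₂ := ⟨⟨z, hz⟩, hzH₁ (mem_zpowers _), rfl⟩
  have hH₂c : Nat.card H₂ = p ^ (n - K) := by
    rw [hH₂, Subgroup.card_map_of_injective H.subtype_injective, hH₁]
  have hH₂i : Nat.card (P ⧸ H₂) = p ^ K := by
    have h1 := H₂.card_eq_card_quotient_mul_card_subgroup
    rw [hcard, hH₂c] at h1
    have h2 : p ^ K * p ^ (n - K) = p ^ n := by rw [← pow_add]; congr 1; omega
    exact Nat.eq_of_mul_eq_mul_right (pow_pos hp.out.pos (n - K)) (h1.symm.trans h2.symm)
  have hle : H₂ ≤ H := by
    rw [hH₂]; exact Subgroup.map_subtype_le H₁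
  -- the character, with values in the roots of unity
  let l₂ : H₂ →* ℂˣ := l.comp (Subgroup.inclusion hle)
  let l₃ : H₂ →* Cyc p n := l₂.codRestrict (rootsOfUnity (p ^ n) ℂ) (by
    intro x
    rw [mem_rootsOfUnity, ← map_pow]
    have : x ^ (p ^ n) = 1 := by
      ext
      have h1 : (x : P) ^ Nat.card P = 1 := pow_card_eq_one'
      rw [hcard] at h1
      exact h1
    rw [this, map_one])
  have e : Fin (p ^ K) ≃ P ⧸ H₂ := (Finite.equivFinOfCardEq hH₂i).symm
  obtain ⟨Φ, hΦ⟩ := mono P H₂ (Cyc p n) l₃ (Fin (p ^ K)) e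
  refine ⟨Φ, ?_⟩
  intro h
  have h1 := hΦ z hzc hzH₂ h
  apply hl
  exact congrArg Subtype.val h1

theorem card_big (p : ℕ) [hp : Fact p.Prime] (n : ℕ) :
    (Nat.card (Fin n → Mon (Fin (p ^ ((n - 1) / 2))) (Cyc p n))).factorization p = bound p n := by
  have hp1 : 1 < p := hp.out.one_lt
  haveI : NeZero (p ^ n) := ⟨(pow_pos hp.out.pos n).ne'⟩
  set K := (n - 1) / 2 with hK
  have h1 : Nat.card (Mon (Fin (p ^ K)) (Cyc p n)) = (p ^ n) ^ (p ^ K) * (p ^ K).factorial := by
    rw [SemidirectProduct.card, Nat.card_perm, Nat.card_fun, Nat.card_fin]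
    congr 2
    exact Complex.card_rootsOfUnity _
  have h2 : (p ^ K).factorial.factorization p = (p ^ K - 1) / (p - 1) := by
    have h3 := sub_one_mul_padicValNat_factorial (p := p) (p ^ K)
    have h4 : (p.digits (p ^ K)).sum = 1 := by
      have := Nat.digits_base_pow_mul (b := p) (k := K) (m := 1) hp1 one_pos
      rw [mul_one] at this
      rw [this]
      simp [Nat.digits_of_lt p 1 one_ne_zero hp1]
    rw [h4] at h3
    rw [Nat.factorization_def _ hp.out]
    rw [← h3, Nat.mul_div_cancel_left _ (by omega)]
  rw [Nat.card_fun, Nat.card_fin, h1, Nat.factorization_pow, Nat.factorization_mul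
    (pow_pos (pow_pos hp.out.pos n) _).ne' (Nat.factorial_ne_zero _), Nat.factorization_pow, Nat.factorization_pow]
  simp only [Finsupp.smul_apply, Finsupp.add_apply, smul_eq_mul, h2, hp.out.factorization_self, mul_one]
  rw [bound, ← hK]
  ring

theorem univ (p : ℕ) [hp : Fact p.Prime] (n : ℕ) (hn : 1 ≤ n) :
    ∃ (U : Type) (_ : Group U), Nat.card U = p ^ (bound p n) ∧
      ∀ (P : Type) [Group P], Nat.card P = p ^ n → ∃ φ : P →* U, Function.Injective φ := by
  haveI : NeZero (p ^ n) := ⟨(pow_pos hp.out.pos n).ne'⟩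
  haveI : Finite (Mon (Fin (p ^ ((n - 1) / 2))) (Cyc p n)) :=
    Finite.of_equiv _ SemidirectProduct.equivProd.symm
  let S : Sylow p (Fin n → Mon (Fin (p ^ ((n - 1) / 2))) (Cyc p n)) := default
  refine ⟨S, inferInstance, ?_, ?_⟩
  · rw [Sylow.card_eq_multiplicity, card_big]
  · intro P _ hcard
    haveI : Finite P := Nat.finite_of_card_ne_zero (by rw [hcard]; exact (pow_pos hp.out.pos n).ne')
    have hP : IsPGroup p P := IsPGroup.of_card hcard
    obtain ⟨Ψ, hΨ⟩ := embed p n hn P hcard
    have hr : IsPGroup p Ψ.range := hP.of_surjective Ψ.rangeRestrict Ψ.rangeRestrict_surjective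
    obtain ⟨Q, hQ⟩ := hr.exists_le_sylow
    refine ⟨(Sylow.equiv Q S).toMonoidHom.comp ((Subgroup.inclusion hQ).comp Ψ.rangeRestrict), ?_⟩
    intro a b hab
    apply hΨ
    have h1 : (Subgroup.inclusion hQ) (Ψ.rangeRestrict a) = (Subgroup.inclusion hQ) (Ψ.rangeRestrict b) :=
      (Sylow.equiv Q S).injective hab
    exact congrArg Subtype.val h1

theorem bound_le (p : ℕ) [hp : Fact p.Prime] (n : ℕ) :
    (bound p n : ℝ) ≤ 2 * (n : ℝ) ^ 2 * (Real.sqrt p) ^ n := by
  have hp1 : 1 < p := hp.out.one_lt
  rcases Nat.eq_zero_or_pos n with rfl | hn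
  · simp [bound]
  have h1 : bound p n ≤ 2 * n ^ 2 * p ^ ((n - 1) / 2) := by
    rw [bound]
    have h2 : (p ^ ((n - 1) / 2) - 1) / (p - 1) ≤ n * p ^ ((n - 1) / 2) := by
      calc (p ^ ((n - 1) / 2) - 1) / (p - 1) ≤ p ^ ((n - 1) / 2) - 1 := Nat.div_le_self _ _
        _ ≤ 1 * p ^ ((n - 1) / 2) := by omega
        _ ≤ _ := Nat.mul_le_mul_right _ hn
    calc n * (n * p ^ ((n - 1) / 2) + (p ^ ((n - 1) / 2) - 1) / (p - 1))
        ≤ n * (n * p ^ ((n - 1) / 2) + n * p ^ ((n - 1) / 2)) := by gcongr
      _ = _ := by ring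
  have hp1r : (1 : ℝ) ≤ p := by exact_mod_cast hp1.le
  have h3 : ((p ^ ((n - 1) / 2) : ℕ) : ℝ) ≤ (Real.sqrt p) ^ n := by
    have h4 : (p : ℝ) = (Real.sqrt p) ^ 2 := (Real.sq_sqrt (by positivity)).symm
    push_cast
    calc (p : ℝ) ^ ((n - 1) / 2) = ((Real.sqrt p) ^ 2) ^ ((n - 1) / 2) := by rw [← h4]
      _ = (Real.sqrt p) ^ (2 * ((n - 1) / 2)) := by rw [← pow_mul]
      _ ≤ _ := pow_le_pow_right₀ (Real.one_le_sqrt.mpr hp1r) (by omega)
  calc (bound p n : ℝ) ≤ ((2 * n ^ 2 * p ^ ((n - 1) / 2) : ℕ) : ℝ) := by exact_mod_cast h1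
    _ = 2 * (n : ℝ) ^ 2 * ((p ^ ((n - 1) / 2) : ℕ) : ℝ) := by push_cast; ring
    _ ≤ _ := by gcongr

/-- For every prime `p` let `f n` be the least `m` such that some group of order `p ^ m` contains a
copy of every group of order `p ^ n`.  Then `f n ≤ n (n p^K + (p^K - 1)/(p - 1))` for all `n ≥ 1`, where
`K = ⌊(n - 1)/2⌋`; in particular `f n / c ^ n → 0` for every real `c > √p`. -/
theorem result :
    ∀ p : ℕ, p.Prime → ∀ f : ℕ → ℕ,
      (∀ n : ℕ, IsLeast
        {m : ℕ | ∃ (U : Type) (_ : Group U), Nat.card U = p ^ m ∧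
          ∀ (P : Type) [Group P], Nat.card P = p ^ n →
            ∃ φ : P →* U, Function.Injective φ} (f n)) →
      (∀ n : ℕ, 1 ≤ n →
        f n ≤ n * (n * p ^ ((n - 1) / 2) + (p ^ ((n - 1) / 2) - 1) / (p - 1))) ∧
      (∀ c : ℝ, Real.sqrt p < c →
        Tendsto (fun n : ℕ => (f n : ℝ) / c ^ n) atTop (𝓝 0)) := by
  intro p hp f hf
  haveI : Fact p.Prime := ⟨hp⟩
  have hle : ∀ n : ℕ, 1 ≤ n → f n ≤ bound p n := fun n hn => (hf n).2 (univ p n hn)
  refine ⟨fun n hn => hle n hn, ?_⟩
  intro c hc
  have hs : 0 < Real.sqrt p := Real.sqrt_pos.mpr (by exact_mod_cast hp.pos)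
  have hc0 : 0 < c := hs.trans hc
  have hlim : Tendsto (fun n : ℕ => 2 * ((n : ℝ) ^ 2 * (Real.sqrt p / c) ^ n)) atTop (𝓝 0) := by
    have h1 := tendsto_pow_const_mul_const_pow_of_abs_lt_one 2 (r := Real.sqrt p / c) (by
      rw [abs_of_pos (div_pos hs hc0)]
      exact (div_lt_one hc0).mpr hc)
    simpa using h1.const_mul 2
  refine squeeze_zero' (Eventually.of_forall fun n => by positivity) ?_ hlim
  filter_upwards [eventually_ge_atTop 1] with n hn
  have h1 : (f n : ℝ) ≤ 2 * (n : ℝ) ^ 2 * (Real.sqrt p) ^ n :=
    (by exact_mod_cast hle n hn : (f n : ℝ) ≤ (bound p n : ℝ)).trans (bound_le p n)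
  calc (f n : ℝ) / c ^ n ≤ (2 * (n : ℝ) ^ 2 * (Real.sqrt p) ^ n) / c ^ n := by gcongr
    _ = _ := by rw [div_pow]; ring

end Pool.Agent.Results.MP_aa96c4_al.SquareRootUpperBound
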